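import Mathlib

set_option autoImplicit false

namespace Pool.Agent.H.MP_dc1b93_an

open Polynomial Filter Topology Matrix

noncomputable def w : ℂ[X] := X * (X - C 1)

noncomputable def g (i : ℕ) : ℂ[X] := w ^ (i / 2) * X ^ (i % 2)

lemma w_monic : w.Monic := monic_X.mul (monic_X_sub_C 1)

lemma g_monic (i : ℕ) : (g i).Monic := (w_monic.pow _).mul (monic_X_pow _)

lemma g_natDegree (i : ℕ) : (g i).natDegree = i := by
  have : w.natDegree = 2 := by
    rw [w, monic_X.natDegree_mul (monic_X_sub_C 1), natDegree_X, natDegree_X_sub_C]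
  rw [g, (w_monic.pow _).natDegree_mul (monic_X_pow _), w_monic.natDegree_pow, this,
    natDegree_X_pow]
  omega

noncomputable def gs : Polynomial.Sequence ℂ :=
  ⟨g, fun i => by rw [degree_eq_natDegree (g_monic i).ne_zero, g_natDegree]⟩

lemma gs_unit (i : ℕ) : IsUnit (gs i).leadingCoeff := by
  change IsUnit (g i).leadingCoeff
  rw [(g_monic i).leadingCoeff]; exact isUnit_one

noncomputable def co (i : ℕ) : ℂ[X] →ₗ[ℂ] ℂ := (gs.basis gs_unit).coord i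

lemma co_g (i j : ℕ) : co i (g j) = if j = i then 1 else 0 := by
  have : g j = gs.basis gs_unit j := (gs.basis_eq_self gs_unit j).symm
  rw [co, this, Module.Basis.coord_apply, Module.Basis.repr_self, Finsupp.single_apply]

lemma sum_co {L : ℕ} {f : ℂ[X]} (hf : f.natDegree < L) : ∑ i : Fin L, co i f • g i = f := by
  have h1 : f ∈ Submodule.span ℂ (gs '' Set.Iio L) := by
    rw [gs.span_degreeLT fun i _ => gs_unit i, mem_degreeLT]
    exact degree_le_natDegree.trans_lt (by exact_mod_cast hf)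
  clear hf
  induction h1 using Submodule.span_induction with
  | mem x hx =>
    obtain ⟨j, hj, rfl⟩ := hx
    change ∑ i : Fin L, co i (g j) • g i = g j
    rw [Finset.sum_eq_single (⟨j, hj⟩ : Fin L)]
    · simp [co_g]
    · intro i _ hi
      rw [co_g, if_neg (fun h => hi (Fin.ext h.symm)), zero_smul]
    · simp
  | zero => simp
  | add x y _ _ hx hy => simp only [map_add, add_smul, Finset.sum_add_distrib, hx, hy]
  | smul c x _ hx => simp only [map_smul, smul_assoc, ← Finset.smul_sum, hx]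

lemma co_dvd {m i : ℕ} {f : ℂ[X]} (h : w ^ m ∣ f) (hi : i < 2 * m) : co i f = 0 := by
  obtain ⟨q, rfl⟩ := h
  rw [← sum_co (Nat.lt_succ_self q.natDegree), Finset.mul_sum, map_sum]
  refine Finset.sum_eq_zero fun j _ => ?_
  have : w ^ m * g j = g (j + 2 * m) := by
    rw [g, g, show (j + 2 * m) / 2 = m + j / 2 by omega, show (j + 2 * m) % 2 = j % 2 by omega]
    ring
  rw [mul_smul_comm, this, map_smul, co_g, if_neg (by omega), smul_zero]

lemma co_der {i j : ℕ} (h : i + 3 < j) : co i (derivative (g j)) = 0 :=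
  co_dvd (pow_sub_one_dvd_derivative_of_pow_dvd (n := j / 2) (dvd_mul_right _ _)) (by omega)

abbrev F (L : ℕ) : Type := Fin L → ℂ

variable {L : ℕ} {β : ℂ}

noncomputable def Θ (L : ℕ) (β : ℂ) : ℂ[X] →ₗ[ℂ] F L :=
  LinearMap.pi fun i => β ^ (3 - (i : ℤ)) • co i

lemma Θ_apply (f : ℂ[X]) (i : Fin L) : Θ L β f i = β ^ (3 - (i : ℤ)) * co i f := rfl

noncomputable def Mz (L : ℕ) (β : ℂ) : Matrix (Fin L) (Fin L) ℂ :=
  Matrix.of fun i j => β ^ ((j : ℤ) - i - 4) * co i (derivative (g j))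

noncomputable def Zp (L : ℕ) (β : ℂ) : F L →L[ℂ] F L :=
  LinearMap.toContinuousLinearMap (Matrix.mulVecLin (Mz L β))

noncomputable def Zm (L : ℕ) (β : ℂ) : F L →L[ℂ] F L :=
  LinearMap.toContinuousLinearMap (Matrix.vecMulLinear (Mz L β))

lemma Z_dual (a y : F L) : Zm L β a ⬝ᵥ y = a ⬝ᵥ Zp L β y := by
  simp [Zm, Zp, dotProduct_mulVec]

lemma Zp_Θ (hβ : β ≠ 0) {f : ℂ[X]} (hf : f.natDegree < L) :
    β ^ 4 • Zp L β (Θ L β f) = Θ L β (derivative f) := by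
  conv_rhs => rw [← sum_co hf]
  funext i
  simp only [Zp, LinearMap.coe_toContinuousLinearMap', mulVecLin_apply, Pi.smul_apply, mulVec,
    dotProduct, Mz, of_apply, Θ_apply, map_sum, map_smul, smul_eq_mul,
    Finset.mul_sum]
  refine Finset.sum_congr rfl fun j _ => ?_
  have : β ^ 4 * (β ^ ((j : ℤ) - i - 4) * β ^ (3 - (j : ℤ))) = β ^ (3 - (i : ℤ)) := by
    rw [← zpow_natCast, ← zpow_add₀ hβ, ← zpow_add₀ hβ]; congr 1; push_cast; ring
  rw [← this]; ring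

lemma Θ_surj (hβ : β ≠ 0) (hL : 0 < L) (y : F L) : ∃ f : ℂ[X], f.natDegree < L ∧ Θ L β f = y := by
  refine ⟨∑ j : Fin L, (β ^ ((j : ℤ) - 3) * y j) • g j, ?_, ?_⟩
  · have : (∑ j : Fin L, (β ^ ((j : ℤ) - 3) * y j) • g j).natDegree ≤ L - 1 :=
      natDegree_sum_le_of_forall_le _ _ fun j _ =>
        (natDegree_smul_le _ _).trans (by rw [g_natDegree]; omega)
    omega
  · funext i
    rw [Θ_apply, map_sum, Finset.sum_eq_single i]
    · rw [map_smul, co_g, if_pos rfl, smul_eq_mul, mul_one, ← mul_assoc, ← zpow_add₀ hβ]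
      simp
    · intro j _ hj
      rw [map_smul, co_g, if_neg (fun h => hj (Fin.ext h)), smul_zero]
    · simp

lemma Zp_pow (hβ : β ≠ 0) {f : ℂ[X]} (hf : f.natDegree < L) (k : ℕ) :
    (β ^ 4) ^ k • (Zp L β ^ k) (Θ L β f) = Θ L β (derivative^[k] f) := by
  induction k with
  | zero => simp
  | succ k ih =>
    rw [Function.iterate_succ_apply', ← Zp_Θ hβ
      (lt_of_le_of_lt ((natDegree_iterate_derivative f k).trans (Nat.sub_le _ _)) hf), ← ih,
      map_smul, smul_smul, pow_succ', pow_succ' (Zp L β), mul_apply_eq_comp]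

lemma dot_ext {a a' : F L} (h : ∀ y, a ⬝ᵥ y = a' ⬝ᵥ y) : a = a' := by
  funext i
  simpa using h (Pi.single i 1)

lemma Z_dual_pow (k : ℕ) (a y : F L) : (Zm L β ^ k) a ⬝ᵥ y = a ⬝ᵥ (Zp L β ^ k) y := by
  induction k generalizing y with
  | zero => simp
  | succ k ih => rw [pow_succ', mul_apply_eq_comp, Z_dual, ih, pow_succ, mul_apply_eq_comp]

lemma Zp_nil (hβ : β ≠ 0) (hL : 0 < L) {k : ℕ} (hk : L ≤ k) (y : F L) : (Zp L β ^ k) y = 0 := by
  obtain ⟨f, hf, rfl⟩ := Θ_surj hβ hL y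
  have := Zp_pow hβ hf k
  rw [iterate_derivative_eq_zero (by omega), map_zero] at this
  exact (smul_eq_zero.1 this).resolve_left (by positivity)

lemma Zm_nil (hβ : β ≠ 0) (hL : 0 < L) {k : ℕ} (hk : L ≤ k) (a : F L) : (Zm L β ^ k) a = 0 :=
  dot_ext fun y => by rw [Z_dual_pow, Zp_nil hβ hL hk]; simp

lemma taylor_sum {N : ℕ} {f : ℂ[X]} (hf : f.natDegree < N) :
    ∑ k ∈ Finset.range N, ((k.factorial : ℂ)⁻¹) • derivative^[k] f = taylor 1 f := by
  refine Polynomial.funext fun x => ?_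
  rw [taylor_eval, add_comm, ← taylor_eval,
    eval_eq_sum_range' (p := taylor x f) (n := N) (by rwa [natDegree_taylor]), eval_finsetSum]
  refine Finset.sum_congr rfl fun k _ => ?_
  rw [taylor_coeff, ← factorial_smul_hasseDeriv]
  have : (k.factorial : ℂ) ≠ 0 := by exact_mod_cast k.factorial_ne_zero
  simp [this]

lemma Zp_exp (hβ : β ≠ 0) {f : ℂ[X]} (hf : f.natDegree < L) {N : ℕ} (hN : L ≤ N) :
    ∑ k ∈ Finset.range N, ((k.factorial : ℂ)⁻¹ * (β ^ 4) ^ k) • (Zp L β ^ k) (Θ L β f) =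
      Θ L β (taylor 1 f) := by
  rw [← taylor_sum (N := N) (by omega), map_sum]
  refine Finset.sum_congr rfl fun k _ => ?_
  rw [mul_smul, Zp_pow hβ hf, map_smul]

noncomputable def av (L : ℕ) (β σ : ℂ) : F L := fun i => β ^ ((i : ℤ) - 2) * (g i).eval σ

lemma av_dot (hβ : β ≠ 0) {f : ℂ[X]} (hf : f.natDegree < L) (σ : ℂ) :
    av L β σ ⬝ᵥ Θ L β f = β * f.eval σ := by
  conv_rhs => rw [← sum_co hf]
  rw [dotProduct, eval_finsetSum, Finset.mul_sum]
  refine Finset.sum_congr rfl fun i _ => ?_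
  have : β ^ ((i : ℤ) - 2) * β ^ (3 - (i : ℤ)) = β := by
    rw [← zpow_add₀ hβ, show (i : ℤ) - 2 + (3 - i) = 1 by ring, zpow_one]
  rw [av, Θ_apply, eval_smul, smul_eq_mul]
  linear_combination (co i f * eval σ (g i)) * this

lemma Zm_exp (hβ : β ≠ 0) (hL : 0 < L) {N : ℕ} (hN : L ≤ N) :
    ∑ k ∈ Finset.range N, ((k.factorial : ℂ)⁻¹ * (β ^ 4) ^ k) • (Zm L β ^ k) (av L β 0) =
      av L β 1 := by
  refine dot_ext fun y => ?_
  obtain ⟨f, hf, rfl⟩ := Θ_surj hβ hL y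
  have h1 : av L β 1 ⬝ᵥ Θ L β f = av L β 0 ⬝ᵥ Θ L β (taylor 1 f) := by
    rw [av_dot hβ hf, av_dot hβ (by rwa [natDegree_taylor]), taylor_eval, zero_add]
  rw [h1, ← Zp_exp hβ hf hN, sum_dotProduct, dotProduct_sum]
  refine Finset.sum_congr rfl fun k _ => ?_
  rw [smul_dotProduct, dotProduct_smul, Z_dual_pow]

lemma exists_chi (m : ℕ) : ∃ χ0 χ2 : ℂ[X], w ^ m ∣ derivative χ0 ∧ χ0.eval 0 = 1 ∧ χ0.eval 1 = 0 ∧
    w ^ m ∣ χ2 ∧ w ^ m ∣ taylor 1 χ0 ∧ w ^ m ∣ taylor 1 (1 - χ0 - χ2) - χ0 ∧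
    w ^ m ∣ taylor 1 χ2 - 1 + χ0 := by
  have cop : ∀ a b : ℂ, a ≠ b → IsCoprime ((X - C a) ^ (m + 1)) ((X - C b) ^ (m + 1)) :=
    fun a b h => (isCoprime_X_sub_C_of_isUnit_sub (sub_ne_zero.2 h).isUnit).pow
  have hw : ∀ f : ℂ[X], (X - C 0) ^ m ∣ f → (X - C 1) ^ m ∣ f → w ^ m ∣ f := fun f h0 h1 => by
    have := (isCoprime_X_sub_C_of_isUnit_sub (sub_ne_zero.2 (zero_ne_one (α := ℂ))).isUnit).pow
      (m := m) (n := m)
    have := this.mul_dvd h0 h1
    rwa [← mul_pow, map_zero, sub_zero] at this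
  have hs : ∀ (c : ℂ) (f : ℂ[X]), (X - C c) ^ (m + 1) ∣ f → (X - C c) ^ m ∣ f :=
    fun c f h => (pow_dvd_pow _ (Nat.le_succ m)).trans h
  have ht : ∀ (c : ℂ) (f : ℂ[X]), (X - C (c + 1)) ^ (m + 1) ∣ f → (X - C c) ^ m ∣ taylor 1 f :=
    fun c f h => by
      obtain ⟨q, rfl⟩ := hs _ _ h
      refine ⟨taylor 1 q, ?_⟩
      rw [taylor_mul, taylor_pow, map_sub, taylor_X, taylor_C, C_add]
      congr 2; ring
  obtain ⟨a0, b0, h0⟩ := (cop 0 1 (by norm_num)).mul_right (cop 0 2 (by norm_num))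
  obtain ⟨a2, b2, h2⟩ := (cop 2 0 (by norm_num)).mul_right (cop 2 1 (by norm_num))
  set χ0 := b0 * ((X - C 1) ^ (m + 1) * (X - C 2) ^ (m + 1)) with e0
  set χ2 := b2 * ((X - C 0) ^ (m + 1) * (X - C 1) ^ (m + 1)) with e2
  have p00 : (X - C 0) ^ (m + 1) ∣ χ0 - 1 := ⟨-a0, by linear_combination h0⟩
  have p01 : (X - C 1) ^ (m + 1) ∣ χ0 := (dvd_mul_right _ _).mul_left _
  have p02 : (X - C 2) ^ (m + 1) ∣ χ0 := (dvd_mul_left _ _).mul_left _
  have p22 : (X - C 2) ^ (m + 1) ∣ χ2 - 1 := ⟨-a2, by linear_combination h2⟩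
  have p20 : (X - C 0) ^ (m + 1) ∣ χ2 := (dvd_mul_right _ _).mul_left _
  have p21 : (X - C 1) ^ (m + 1) ∣ χ2 := (dvd_mul_left _ _).mul_left _
  have t01 := ht 0 χ0 (by simpa using p01)
  have t02 := ht 1 χ0 (by rw [one_add_one_eq_two]; exact p02)
  have t21 := ht 0 χ2 (by simpa using p21)
  have t22 := ht 1 (χ2 - 1) (by rw [one_add_one_eq_two]; exact p22)
  rw [map_sub, taylor_one, C_1] at t22
  refine ⟨χ0, χ2, hw _ ?_ ?_, ?_, ?_, hw _ (hs _ _ p20) (hs _ _ p21), hw _ t01 t02, hw _ ?_ ?_,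
    hw _ ?_ ?_⟩
  · simpa using pow_sub_one_dvd_derivative_of_pow_dvd p00
  · simpa using pow_sub_one_dvd_derivative_of_pow_dvd p01
  · obtain ⟨q, hq⟩ := p00
    have := congrArg (eval 0) hq
    simp at this
    exact sub_eq_zero.1 this
  · simp [e0]
  · have : taylor 1 (1 - χ0 - χ2) - χ0 = -(χ0 - 1) - taylor 1 χ0 - taylor 1 χ2 := by
      rw [map_sub, map_sub, taylor_one, C_1]; ring
    rw [this]
    exact ((hs _ _ p00).neg_right.sub t01).sub t21
  · have : taylor 1 (1 - χ0 - χ2) - χ0 = -(taylor 1 χ2 - 1) - taylor 1 χ0 - χ0 := by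
      rw [map_sub, map_sub, taylor_one, C_1]; ring
    rw [this]
    exact (t22.neg_right.sub t02).sub (hs _ _ p01)
  · rw [sub_add_eq_add_sub, add_sub_assoc]
    exact t21.add (hs _ _ p00)
  · exact t22.add (hs _ _ p01)

end Pool.Agent.H.MP_dc1b93_an
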