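import Pool.Agent.H.MP_dc1b93_an.A

set_option autoImplicit false

namespace Pool.Agent.H.MP_dc1b93_an

open Filter Topology

variable {E : Type*} [NormedAddCommGroup E] [NormedSpace ℂ E] {L : ℕ}

structure Frame (L : ℕ) (A : E →L[ℂ] E) (B : E →L[ℂ] E →L[ℂ] ℂ) (W Y : Submodule ℂ E) where
  Jm : F L →L[ℂ] E
  Jp : F L →L[ℂ] E
  Pm : E →L[ℂ] F L
  Pp : E →L[ℂ] F L
  hB : ∀ x y, B x y = B y x
  hA : ∀ x y, B (A x) y = B x (A y)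
  mm : ∀ a, Pm (Jm a) = a
  pp : ∀ a, Pp (Jp a) = a
  mp : ∀ a, Pm (Jp a) = 0
  pm : ∀ a, Pp (Jm a) = 0
  JmY : ∀ a, Jm a ∈ Y
  JpY : ∀ a, Jp a ∈ Y
  AY : ∀ x ∈ Y, A x = 0
  BY : ∀ x ∈ Y, ∀ y, B x y = 0
  AW : ∀ x, A x ∈ W
  PmW : ∀ x ∈ W, Pm x = 0
  PpW : ∀ x ∈ W, Pp x = 0

noncomputable def dag (B : E →L[ℂ] E →L[ℂ] ℂ) (M : F L →L[ℂ] E) : E →L[ℂ] F L :=
  ContinuousLinearMap.pi fun i => B (M (Pi.single i 1))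

lemma dot_dag (B : E →L[ℂ] E →L[ℂ] ℂ) (M : F L →L[ℂ] E) (a : F L) (x : E) :
    a ⬝ᵥ dag B M x = B (M a) x := by
  conv_rhs => rw [pi_eq_sum_univ' a]
  simp [dag, dotProduct]

noncomputable def dotL (L : ℕ) : F L →L[ℂ] F L →L[ℂ] ℂ :=
  LinearMap.toContinuousLinearMap
    ((LinearMap.toContinuousLinearMap : (F L →ₗ[ℂ] ℂ) ≃ₗ[ℂ] (F L →L[ℂ] ℂ)).toLinearMap ∘ₗ
      dotProductBilin ℂ ℂ)

lemma dotL_apply (a y : F L) : dotL L a y = a ⬝ᵥ y := rfl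

variable {A : E →L[ℂ] E} {B : E →L[ℂ] E →L[ℂ] ℂ} {W Y : Submodule ℂ E} (φ : Frame L A B W Y)
  (β : ℂ) (Ξ : F L →L[ℂ] E)

noncomputable def Cc (A : E →L[ℂ] E) (β : ℂ) (Ξ : F L →L[ℂ] E) : F L →L[ℂ] E :=
  Ξ ∘L Zm L β - A ∘L Ξ

namespace Frame

noncomputable def dA : E →L[ℂ] E :=
  φ.Jm ∘L Zm L β ∘L φ.Pm + Cc A β Ξ ∘L φ.Pm + φ.Jp ∘L (β • dag B (Cc A β Ξ) -
    ((β / 2) • (dag B Ξ ∘L Cc A β Ξ + dag B (Cc A β Ξ) ∘L Ξ)) ∘L φ.Pm + Zp L β ∘L φ.Pp)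

noncomputable def dB : E →L[ℂ] E →L[ℂ] ℂ :=
  (dotL L).bilinearComp φ.Pm φ.Pp + (dotL L).bilinearComp φ.Pp φ.Pm

noncomputable def S : E →L[ℂ] E :=
  1 + Ξ ∘L φ.Pm - φ.Jp ∘L (β • dag B Ξ + (β / 2) • dag B Ξ ∘L Ξ ∘L φ.Pm)

noncomputable def A0 : E →L[ℂ] E := A + φ.Jm ∘L Zm L β ∘L φ.Pm + φ.Jp ∘L Zp L β ∘L φ.Pp

lemma dA_apply (x : E) : φ.dA β Ξ x = φ.Jm (Zm L β (φ.Pm x)) + Cc A β Ξ (φ.Pm x) +
    φ.Jp (β • dag B (Cc A β Ξ) x - (β / 2) • (dag B Ξ (Cc A β Ξ (φ.Pm x)) +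
      dag B (Cc A β Ξ) (Ξ (φ.Pm x))) + Zp L β (φ.Pp x)) := rfl

lemma dB_apply (x y : E) : φ.dB x y = φ.Pm x ⬝ᵥ φ.Pp y + φ.Pp x ⬝ᵥ φ.Pm y := rfl

lemma S_apply (x : E) : φ.S β Ξ x = x + Ξ (φ.Pm x) -
    φ.Jp (β • dag B Ξ x + (β / 2) • dag B Ξ (Ξ (φ.Pm x))) := rfl

lemma A0_apply (x : E) :
    φ.A0 β x = A x + φ.Jm (Zm L β (φ.Pm x)) + φ.Jp (Zp L β (φ.Pp x)) := rfl

include φ in
lemma dag_Y (M : F L →L[ℂ] E) {x : E} (hx : x ∈ Y) : dag B M x = 0 := by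
  funext i
  simp [dag, φ.hB _ x, φ.BY x hx]

include φ in
lemma Zp_dag (x : E) : Zp L β (dag B Ξ x) = dag B (Cc A β Ξ) x + dag B Ξ (A x) := by
  refine dot_ext fun y => ?_
  rw [dotProduct_comm, ← Z_dual, dot_dag, dotProduct_comm, dotProduct_add, dot_dag, dot_dag,
    ← φ.hA]
  simp [Cc]

variable {Ξ} (hΞ : ∀ a, Ξ a ∈ W)
include hΞ

include φ in
lemma C_W (a : F L) : Cc A β Ξ a ∈ W := W.sub_mem (hΞ _) (φ.AW _)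

lemma sym (hβ : β ≠ 0) (x y : E) : (B + β⁻¹ • φ.dB) ((A + φ.dA β Ξ) x) y =
    (B + β⁻¹ • φ.dB) x ((A + φ.dA β Ξ) y) := by
  have key : ∀ x y, (B + β⁻¹ • φ.dB) ((A + φ.dA β Ξ) x) y =
      B (A x) y + B (Cc A β Ξ (φ.Pm x)) y + B (Cc A β Ξ (φ.Pm y)) x +
      β⁻¹ * (Zm L β (φ.Pm x) ⬝ᵥ φ.Pp y + Zm L β (φ.Pm y) ⬝ᵥ φ.Pp x) -
      (B (Ξ (φ.Pm y)) (Cc A β Ξ (φ.Pm x)) + B (Ξ (φ.Pm x)) (Cc A β Ξ (φ.Pm y))) / 2 := by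
    intro x y
    simp only [add_apply, smul_apply, dB_apply, dA_apply, map_add, φ.mm, φ.mp, φ.pm, φ.pp,
      φ.PmW _ (φ.AW _), φ.PpW _ (φ.AW _), φ.PmW _ (φ.C_W β hΞ _), φ.PpW _ (φ.C_W β hΞ _),
      φ.BY _ (φ.JmY _), φ.BY _ (φ.JpY _), zero_add, add_zero, smul_eq_mul,
      dotProduct_comm _ (φ.Pm y), zero_dotProduct, dotProduct_zero, dotProduct_add, dotProduct_sub,
      dotProduct_smul, dot_dag, ← Z_dual, φ.hB (Cc A β Ξ (φ.Pm y)) (Ξ _)]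
    field_simp
    ring
  have hs : ∀ x y, (B + β⁻¹ • φ.dB) x y = (B + β⁻¹ • φ.dB) y x := fun x y => by
    simp only [add_apply, smul_apply, dB_apply, φ.hB x y, dotProduct_comm (φ.Pm x),
      dotProduct_comm (φ.Pm y), smul_eq_mul]
    ring
  rw [hs x, key, key, φ.hA x y, φ.hB x]
  ring

lemma AS (x : E) : (A + φ.dA β Ξ) (φ.S β Ξ x) = φ.S β Ξ (φ.A0 β x) := by
  have h1 : φ.Pm (φ.S β Ξ x) = φ.Pm x := by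
    simp [S_apply, φ.mp, φ.PmW _ (hΞ _)]
  have h2 : φ.Pp (φ.S β Ξ x) = φ.Pp x - (β • dag B Ξ x + (β / 2) • dag B Ξ (Ξ (φ.Pm x))) := by
    simp only [S_apply, map_sub, map_add φ.Pp, φ.pp, φ.PpW _ (hΞ _), add_zero]
  have h3 : φ.Pm (φ.A0 β x) = Zm L β (φ.Pm x) := by
    simp [A0_apply, φ.mp, φ.mm, φ.PmW _ (φ.AW _)]
  have h4 : dag B Ξ (φ.A0 β x) = dag B Ξ (A x) := by
    simp [A0_apply, φ.dag_Y _ (φ.JmY _), φ.dag_Y _ (φ.JpY _)]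
  have h5 : A (φ.S β Ξ x) = A x + A (Ξ (φ.Pm x)) := by
    simp only [S_apply, map_sub, map_add A, φ.AY _ (φ.JpY _), sub_zero]
  have h6 : dag B (Cc A β Ξ) (φ.S β Ξ x) = dag B (Cc A β Ξ) x + dag B (Cc A β Ξ) (Ξ (φ.Pm x)) := by
    simp only [S_apply, map_sub, map_add (dag B _), φ.dag_Y _ (φ.JpY _), sub_zero]
  have h7 : ∀ a, Ξ (Zm L β a) = Cc A β Ξ a + A (Ξ a) := fun a => by simp [Cc]
  rw [add_apply, dA_apply, h1, h2, h5, h6, S_apply φ β Ξ (φ.A0 β x), h3, h4, A0_apply, h7]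
  simp only [map_sub, map_add, map_smul, φ.Zp_dag β Ξ]
  module

lemma S_surj (x : E) : ∃ z, φ.S β Ξ z = x := by
  refine ⟨x - Ξ (φ.Pm x) + φ.Jp (β • dag B Ξ x - (β / 2) • dag B Ξ (Ξ (φ.Pm x))), ?_⟩
  simp only [S_apply, map_sub, map_add, map_smul, φ.mp, φ.PmW _ (hΞ _), φ.dag_Y _ (φ.JpY _),
    map_zero, smul_zero]
  module

lemma AS_pow (k : ℕ) (x : E) :
    ((A + φ.dA β Ξ) ^ k) (φ.S β Ξ x) = φ.S β Ξ ((φ.A0 β ^ k) x) := by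
  induction k with
  | zero => simp
  | succ k ih => rw [pow_succ', mul_apply_eq_comp, ih, φ.AS β hΞ, pow_succ', mul_apply_eq_comp]

omit hΞ in
lemma A0_pow (k : ℕ) (x : E) : (φ.A0 β ^ (k + 1)) x =
    (A ^ (k + 1)) x + φ.Jm ((Zm L β ^ (k + 1)) (φ.Pm x)) + φ.Jp ((Zp L β ^ (k + 1)) (φ.Pp x)) := by
  induction k with
  | zero => simp [A0_apply]
  | succ k ih =>
    rw [pow_succ' (φ.A0 β), mul_apply_eq_comp, ih, A0_apply, pow_succ' A (k + 1),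
      pow_succ' (Zm L β) (k + 1), pow_succ' (Zp L β) (k + 1)]
    have : (A ^ (k + 1)) x ∈ W := by rw [pow_succ']; exact φ.AW _
    simp only [map_add, mul_apply_eq_comp, φ.mm, φ.mp, φ.pm, φ.pp, φ.AY _ (φ.JmY _),
      φ.AY _ (φ.JpY _), φ.PmW _ this, φ.PpW _ this, zero_add, add_zero]

omit hΞ in
lemma A0_pow' (k : ℕ) (a y : F L) : (φ.A0 β ^ k) (φ.Jm a + φ.Jp y) =
    φ.Jm ((Zm L β ^ k) a) + φ.Jp ((Zp L β ^ k) y) := by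
  cases k with
  | zero => simp
  | succ k =>
    rw [A0_pow, pow_succ A]
    simp [φ.mm, φ.mp, φ.pm, φ.pp, φ.AY _ (φ.JmY _), φ.AY _ (φ.JpY _)]

lemma nil (hβ : β ≠ 0) (hL : 0 < L) {n : ℕ} (hn : A ^ n = 0) : (A + φ.dA β Ξ) ^ (n + L) = 0 := by
  ext x
  obtain ⟨z, rfl⟩ := φ.S_surj β hΞ x
  obtain ⟨k, hk⟩ : ∃ k, n + L = k + 1 := ⟨n + L - 1, by omega⟩
  rw [φ.AS_pow β hΞ, hk, A0_pow, Zm_nil hβ hL (by omega), Zp_nil hβ hL (by omega),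
    pow_eq_zero_of_le (by omega) hn]
  simp

omit hΞ in
lemma S_J (a y : F L) : φ.S β Ξ (φ.Jm a + φ.Jp y) =
    φ.Jm a + Ξ a + φ.Jp (y - (β / 2) • dag B Ξ (Ξ a)) := by
  simp only [S_apply, map_sub, map_add, map_smul, φ.mp, φ.mm, φ.dag_Y _ (φ.JpY _),
    φ.dag_Y _ (φ.JmY _), add_zero, map_zero, smul_zero]
  module

end Frame

lemma exp_nil [CompleteSpace E] {M : E →L[ℂ] E} {N : ℕ} (h : M ^ N = 0) :
    NormedSpace.exp M = ∑ k ∈ Finset.range N, ((k.factorial : ℂ)⁻¹) • M ^ k := by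
  rw [NormedSpace.exp_eq_tsum ℂ]
  refine tsum_eq_sum fun k hk => ?_
  rw [pow_eq_zero_of_le (by simpa using hk) h, smul_zero]

lemma Frame.exp_S [CompleteSpace E] {Ξ : F L →L[ℂ] E} (hΞ : ∀ a, Ξ a ∈ W) (hβ : β ≠ 0)
    (hL : 0 < L) {n : ℕ} (hn : A ^ n = 0) {f : Polynomial ℂ} (hf : f.natDegree < L) :
    NormedSpace.exp (β ^ 4 • (A + φ.dA β Ξ)) (φ.S β Ξ (φ.Jm (av L β 0) + φ.Jp (Θ L β f))) =
      φ.S β Ξ (φ.Jm (av L β 1) + φ.Jp (Θ L β (Polynomial.taylor 1 f))) := by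
  rw [exp_nil (N := n + L) (by rw [smul_pow, φ.nil β hΞ hβ hL hn, smul_zero]),
    ← Zm_exp hβ hL (N := n + L) (by omega), ← Zp_exp hβ hf (N := n + L) (by omega), map_sum,
    map_sum, ← Finset.sum_add_distrib, map_sum, sum_apply]
  refine Finset.sum_congr rfl fun k _ => ?_
  rw [smul_pow, smul_smul, smul_apply, φ.AS_pow β hΞ, φ.A0_pow', map_smul, map_smul, ← smul_add,
    map_smul]

end Pool.Agent.H.MP_dc1b93_an
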