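import Pool.Agent.H.MP_dc1b93_an.B

set_option autoImplicit false

namespace Pool.Agent.H.MP_dc1b93_an

open Filter Topology Polynomial Asymptotics

variable {E : Type*} [NormedAddCommGroup E] [NormedSpace ℂ E] {L : ℕ}

noncomputable def U (A : E →L[ℂ] E) (u : E) (β : ℂ) (k : ℕ) : E :=
  ((β ^ 4) ^ k * (k.factorial : ℂ)⁻¹) • (A ^ k) u

noncomputable def lam (L : ℕ) (β : ℂ) (f : ℂ[X]) : F L →L[ℂ] ℂ := β⁻¹ • dotL L (Θ L β f)

noncomputable def Xi (A : E →L[ℂ] E) (n L : ℕ) (β c : ℂ) (χ : ℂ[X]) (u : E) : F L →L[ℂ] E :=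
  ∑ k ∈ Finset.range n, (lam L β (χ * (X - C c) ^ k)).smulRight (U A u β k)

noncomputable def Ep (A : E →L[ℂ] E) (B : E →L[ℂ] E →L[ℂ] ℂ) (n : ℕ) (β c : ℂ) (u x : E) : ℂ[X] :=
  ∑ k ∈ Finset.range n, B (U A u β k) x • (X - C c) ^ k

variable {A : E →L[ℂ] E} {B : E →L[ℂ] E →L[ℂ] ℂ} {n : ℕ} {β : ℂ}

lemma lam_apply (f : ℂ[X]) (a : F L) : lam L β f a = β⁻¹ * (a ⬝ᵥ Θ L β f) := by
  rw [dotProduct_comm]; rfl

lemma Xi_apply (c : ℂ) (χ : ℂ[X]) (u : E) (a : F L) : Xi A n L β c χ u a =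
    ∑ k ∈ Finset.range n, lam L β (χ * (X - C c) ^ k) a • U A u β k := by
  simp [Xi]

lemma deg_lt {χ : ℂ[X]} (h : χ.natDegree + n < L) (c : ℂ) {k : ℕ} (hk : k ≤ n) :
    (χ * (X - C c) ^ k).natDegree < L := by
  refine lt_of_le_of_lt natDegree_mul_le ?_
  rw [(monic_X_sub_C c).natDegree_pow, natDegree_X_sub_C]; omega

lemma Xi_av (hβ : β ≠ 0) {χ : ℂ[X]} (h : χ.natDegree + n < L) (c σ : ℂ) (u : E) :
    Xi A n L β c χ u (av L β σ) =
      ∑ k ∈ Finset.range n, (χ.eval σ * (σ - c) ^ k) • U A u β k := by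
  rw [Xi_apply]
  refine Finset.sum_congr rfl fun k hk => ?_
  rw [lam_apply, av_dot hβ (deg_lt h c (Finset.mem_range.1 hk).le), inv_mul_cancel_left₀ hβ]
  simp

lemma Xi_av1 (hβ : β ≠ 0) (hn : 0 < n) {χ : ℂ[X]} (h : χ.natDegree + n < L) (c : ℂ) (u : E)
    (h1 : χ.eval c = 1) : Xi A n L β c χ u (av L β c) = u := by
  rw [Xi_av hβ h, Finset.sum_eq_single 0]
  · simp [h1, U]
  · intro k _ hk; simp [hk]
  · simp; omega

lemma Xi_av0 (hβ : β ≠ 0) {χ : ℂ[X]} (h : χ.natDegree + n < L) (c σ : ℂ) (u : E)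
    (h1 : χ.eval σ = 0) : Xi A n L β c χ u (av L β σ) = 0 := by
  rw [Xi_av hβ h]; simp [h1]

lemma lam_Z (hβ : β ≠ 0) {f : ℂ[X]} (hf : f.natDegree < L) (a : F L) :
    lam L β f (Zm L β a) = (β ^ 4)⁻¹ * lam L β (derivative f) a := by
  rw [lam_apply, lam_apply, Z_dual, ← Zp_Θ hβ hf, dotProduct_smul, smul_eq_mul]
  field_simp

lemma Cc_Xi (hβ : β ≠ 0) (hn : 0 < n) (hA : A ^ n = 0) {χ : ℂ[X]} (h : χ.natDegree + n < L)
    (c : ℂ) (u : E) :
    Cc A β (Xi A n L β c χ u) = (β ^ 4)⁻¹ • Xi A n L β c (derivative χ) u := by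
  obtain ⟨n, rfl⟩ : ∃ k, n = k + 1 := ⟨n - 1, by omega⟩
  refine ContinuousLinearMap.ext fun a => ?_
  have e1 : ∀ k ∈ Finset.range (n + 1), lam L β (χ * (X - C c) ^ k) (Zm L β a) • U A u β k =
      (β ^ 4)⁻¹ • lam L β (derivative χ * (X - C c) ^ k) a • U A u β k +
      ((β ^ 4)⁻¹ * (k * lam L β (χ * (X - C c) ^ (k - 1)) a)) • U A u β k := by
    intro k hk
    have : derivative (χ * (X - C c) ^ k) =
        derivative χ * (X - C c) ^ k + (k : ℂ) • (χ * (X - C c) ^ (k - 1)) := by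
      rw [derivative_mul, derivative_X_sub_C_pow, smul_eq_C_mul]; simp; ring
    rw [lam_Z hβ (deg_lt h c (Finset.mem_range.1 hk).le), this, smul_smul, ← add_smul]
    simp only [lam_apply, map_add, map_smul, dotProduct_add, dotProduct_smul, smul_eq_mul]
    congr 1; ring
  have e2 : ∀ k : ℕ, ((β ^ 4)⁻¹ * (((k + 1 : ℕ) : ℂ) * lam L β (χ * (X - C c) ^ (k + 1 - 1)) a)) •
      U A u β (k + 1) = A (lam L β (χ * (X - C c) ^ k) a • U A u β k) := by
    intro k
    have : (k.factorial : ℂ) ≠ 0 := by exact_mod_cast k.factorial_ne_zero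
    have : ((k + 1 : ℕ) : ℂ) ≠ 0 := by exact_mod_cast k.succ_ne_zero
    simp only [U, map_smul, smul_smul, pow_succ' A, mul_apply_eq_comp, Nat.add_sub_cancel,
      Nat.factorial_succ, Nat.cast_mul]
    congr 1; field_simp; ring
  have e3 : A (lam L β (χ * (X - C c) ^ n) a • U A u β n) = 0 := by
    rw [U, map_smul, map_smul, ← mul_apply_eq_comp, ← pow_succ', hA]; simp
  simp only [Cc, sub_apply, ContinuousLinearMap.comp_apply, smul_apply, Xi_apply]
  rw [Finset.sum_congr rfl e1, Finset.sum_add_distrib, ← Finset.smul_sum, map_sum,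
    Finset.sum_range_succ' (fun k => ((β ^ 4)⁻¹ * (k * lam L β (χ * (X - C c) ^ (k - 1)) a)) •
      U A u β k), Finset.sum_range_succ (fun k => A _), e3, Finset.sum_congr rfl fun k _ => e2 k]
  simp

lemma dag_Xi (hβ : β ≠ 0) (c : ℂ) (χ : ℂ[X]) (u x : E) :
    β • dag B (Xi A n L β c χ u) x = Θ L β (χ * Ep A B n β c u x) := by
  refine dot_ext fun a => ?_
  rw [dotProduct_comm, dotProduct_smul, dot_dag, Xi_apply, dotProduct_comm, Ep, Finset.mul_sum,
    map_sum, map_sum, dotProduct_sum, sum_apply, Finset.smul_sum]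
  refine Finset.sum_congr rfl fun k _ => ?_
  rw [mul_smul_comm, map_smul, map_smul, dotProduct_smul, lam_apply, smul_apply]
  simp only [smul_eq_mul]
  field_simp

lemma Ep_symm (hB : ∀ x y, B x y = B y x) (hA : ∀ x y, B (A x) y = B x (A y)) (c : ℂ) (u v : E) :
    Ep A B n β c u v = Ep A B n β c v u := by
  have : ∀ k x y, B ((A ^ k) x) y = B x ((A ^ k) y) := fun k => by
    induction k with
    | zero => simp
    | succ k ih =>
      intro x y
      rw [pow_succ', mul_apply_eq_comp, hA, ih, ← mul_apply_eq_comp, ← pow_succ, pow_succ']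
  refine Finset.sum_congr rfl fun k _ => ?_
  simp only [U, map_smul, smul_apply, this, hB u]

lemma Ep_taylor (c : ℂ) (u x : E) : taylor 1 (Ep A B n β c u x) = Ep A B n β (c - 1) u x := by
  rw [Ep, map_sum]
  refine Finset.sum_congr rfl fun k _ => ?_
  rw [map_smul, taylor_pow, map_sub, taylor_X, taylor_C, C_sub]
  congr 2; ring

lemma Ep_deg (c : ℂ) (u x : E) : (Ep A B n β c u x).natDegree ≤ n :=
  natDegree_sum_le_of_forall_le _ _ fun k hk => (natDegree_smul_le _ _).trans (by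
    rw [(monic_X_sub_C c).natDegree_pow, natDegree_X_sub_C]
    have := Finset.mem_range.1 hk; omega)

lemma Xi_W {W : Submodule ℂ E} (hA : ∀ x, A x ∈ W) {u : E} (hu : u ∈ W) (c : ℂ) (χ : ℂ[X])
    (a : F L) : Xi A n L β c χ u a ∈ W := by
  rw [Xi_apply]
  refine W.sum_mem fun k _ => W.smul_mem _ (W.smul_mem _ ?_)
  cases k with
  | zero => simpa using hu
  | succ k => rw [pow_succ']; exact hA _

section O

variable {V V' V'' : Type*} [NormedAddCommGroup V] [NormedSpace ℂ V] [NormedAddCommGroup V']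
  [NormedSpace ℂ V'] [NormedAddCommGroup V''] [NormedSpace ℂ V'']

def O (k : ℤ) (f : ℕ → V) : Prop := f =O[atTop] fun b : ℕ => (b : ℝ) ^ k

omit [NormedSpace ℂ V] in
lemma O.mono {k k' : ℤ} {f : ℕ → V} (h : O k f) (hk : k ≤ k') : O k' f := by
  refine IsBigO.trans h (IsBigO.of_bound 1 ?_)
  filter_upwards [eventually_ge_atTop 1] with b hb
  have : (1 : ℝ) ≤ b := by exact_mod_cast hb
  rw [one_mul, Real.norm_of_nonneg (by positivity), Real.norm_of_nonneg (by positivity)]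
  exact zpow_le_zpow_right₀ this hk

omit [NormedSpace ℂ V] [NormedSpace ℂ V'] [NormedSpace ℂ V''] in
lemma O.mul {k k' : ℤ} {f : ℕ → V} {f' : ℕ → V'} {f'' : ℕ → V''} (h : O k f) (h' : O k' f')
    (hb : ∀ b, ‖f'' b‖ ≤ ‖f b‖ * ‖f' b‖) : O (k + k') f'' := by
  have h1 := (IsBigO.norm_left h).mul (IsBigO.norm_left h')
  refine IsBigO.trans (IsBigO.of_bound 1 (Eventually.of_forall fun b => ?_)) (h1.congr' .rfl ?_)
  · rw [one_mul, Real.norm_of_nonneg (by positivity)]; exact hb b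
  · filter_upwards [eventually_ge_atTop 1] with b hb
    rw [zpow_add₀ (by positivity)]

omit [NormedSpace ℂ V] in
lemma O.const (c : V) : O 0 fun _ => c := by
  simpa [O] using isBigO_const_const c (one_ne_zero (α := ℝ)) atTop

lemma O.zpow (k : ℤ) : O k fun b : ℕ => (b : ℂ) ^ k :=
  IsBigO.of_bound 1 (Eventually.of_forall fun b => by simp)

lemma O.smul {k k' : ℤ} {f : ℕ → ℂ} {f' : ℕ → V} (h : O k f) (h' : O k' f') :
    O (k + k') fun b => f b • f' b := h.mul h' fun _ => norm_smul_le _ _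

lemma O.comp {k k' : ℤ} {f : ℕ → V' →L[ℂ] V''} {f' : ℕ → V →L[ℂ] V'} (h : O k f) (h' : O k' f') :
    O (k + k') fun b => f b ∘L f' b := h.mul h' fun _ => ContinuousLinearMap.opNorm_comp_le _ _

lemma O.clm {k : ℤ} {f : ℕ → V} (h : O k f) (T : V →L[ℂ] V') : O k fun b => T (f b) := by
  simpa using (O.const T).mul h fun _ => T.le_opNorm _

omit [NormedSpace ℂ V] in
lemma O.tendsto {f : ℕ → V} (h : O (-1) f) : Tendsto f atTop (𝓝 0) :=
  IsBigO.trans_tendsto h ((tendsto_zpow_atTop_zero (by norm_num)).comp tendsto_natCast_atTop_atTop)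

lemma O.cols {k : ℤ} {T : ℕ → F L →L[ℂ] V} (h : ∀ j, O k fun b => T b (Pi.single j 1)) :
    O k T := by
  have : T = fun b => ∑ j, (ContinuousLinearMap.proj j : F L →L[ℂ] ℂ).smulRight
      (T b (Pi.single j 1)) := by
    funext b
    refine ContinuousLinearMap.ext fun a => ?_
    conv_lhs => rw [pi_eq_sum_univ' a]
    simp
  rw [this]
  exact IsBigO.fun_sum fun j _ => (h j).clm (ContinuousLinearMap.smulRightL ℂ (F L) V _)

lemma O.entry {k k' : ℤ} (c : ℂ) (h : c ≠ 0 → k ≤ k') : O k' fun b : ℕ => (b : ℂ) ^ k * c := by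
  by_cases hc : c = 0
  · simp only [hc, mul_zero]; exact isBigO_zero _ _
  · simpa using ((O.zpow k).smul (O.const c)).mono (by simpa using h hc)

end O

lemma O_U (A : E →L[ℂ] E) (u : E) {k : ℕ} (hk : k ≤ n) : O (4 * n) fun b => U A u b k := by
  have := (O.entry (k := 4 * k) (k' := 4 * n) (k.factorial : ℂ)⁻¹ fun _ => by omega).smul
    (O.const ((A ^ k) u))
  rw [add_zero] at this
  convert this using 4 with b
  rw [U, ← pow_mul]
  norm_cast

lemma O_Θ {m : ℕ} {q : ℂ[X]} (h : w ^ m ∣ q) : O (3 - 2 * m) fun b : ℕ => Θ L b q :=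
  isBigO_pi.2 fun i => O.entry _ fun hc => by
    have : ¬ (i : ℕ) < 2 * m := fun hi => hc (co_dvd h hi)
    omega

lemma O_Xi (A : E →L[ℂ] E) (u : E) (c : ℂ) {m : ℕ} {χ : ℂ[X]} (h : w ^ m ∣ χ) :
    O (4 * n + 2 - 2 * m) fun b : ℕ => Xi A n L b c χ u := by
  refine IsBigO.fun_sum fun k hk => ?_
  have h1 : O (-1 + (3 - 2 * m)) fun b : ℕ => lam L b (χ * (X - C c) ^ k) := by
    simpa [lam] using (O.zpow (-1)).smul ((O_Θ (h.mul_right ((X - C c) ^ k))).clm (dotL L))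
  exact (h1.mul (O_U A u (Finset.mem_range.1 hk).le) fun b =>
    (ContinuousLinearMap.norm_smulRight_apply _ _).le).mono (by omega)

lemma O_dag {k : ℤ} {M : ℕ → F L →L[ℂ] E} (h : O k M) : O k fun b => dag B (M b) := by
  have := (O.const B).mul h (f'' := fun b => dag B (M b)) fun b => by
    refine ContinuousLinearMap.opNorm_le_bound _ (by positivity) fun x => ?_
    refine (pi_norm_le_iff_of_nonneg (by positivity)).2 fun i => ?_
    refine (B.le_opNorm₂ _ _).trans ?_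
    have := (M b).le_opNorm (Pi.single i 1)
    rw [Pi.norm_single, norm_one, mul_one] at this
    gcongr
  rwa [zero_add] at this

lemma O_Zp : O (-1) fun b : ℕ => Zp L b :=
  O.cols fun j => isBigO_pi.2 fun i => by
    simpa [O, Zp, Mz] using O.entry (k := (j : ℤ) - i - 4) (k' := -1) (co i (derivative (g j)))
      fun hc => by
        have : ¬ (i : ℕ) + 3 < j := fun h => hc (co_der h)
        omega

lemma O_Zm : O (-1) fun b : ℕ => Zm L b :=
  O.cols fun i => isBigO_pi.2 fun j => by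
    simpa [O, Zm, Mz] using O.entry (k := (j : ℤ) - i - 4) (k' := -1) (co i (derivative (g j)))
      fun hc => by
        have : ¬ (i : ℕ) + 3 < j := fun h => hc (co_der h)
        omega

lemma O_av {σ : ℂ} (h : w.eval σ = 0) : O (-1) fun b : ℕ => av L b σ :=
  isBigO_pi.2 fun i => O.entry _ fun hc => by
    have : ¬ 2 ≤ (i : ℕ) := fun hi => hc (by
      rw [g, eval_mul, eval_pow, h, zero_pow (by omega), zero_mul])
    omega

lemma O_ΘE (c : ℂ) (u x : E) {m : ℕ} {q : ℂ[X]} (h : w ^ m ∣ q) :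
    O (4 * n + 3 - 2 * m) fun b : ℕ => Θ L b (q * Ep A B n b c u x) := by
  simp only [Ep, Finset.mul_sum, map_sum, mul_smul_comm, map_smul]
  refine IsBigO.fun_sum fun k hk => ?_
  exact (((O_U A u (Finset.mem_range.1 hk).le).clm (B.flip x)).smul
    (O_Θ (h.mul_right ((X - C c) ^ k)))).mono (by omega)

end Pool.Agent.H.MP_dc1b93_an
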