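import Pool.Agent.H.MP_dc1b93_an.C

set_option autoImplicit false

namespace Pool.Agent.H.MP_dc1b93_an

open Filter Topology Polynomial Asymptotics

variable {E : Type*} [NormedAddCommGroup E] [NormedSpace ℂ E]

lemma inf_ker {V : Type*} [AddCommGroup V] [Module ℂ V] [FiniteDimensional ℂ V]
    {Y : Submodule ℂ E} (hY : ¬ FiniteDimensional ℂ Y) (f : E →ₗ[ℂ] V) :
    ¬ FiniteDimensional ℂ (Y ⊓ LinearMap.ker f : Submodule ℂ E) := fun h =>
  hY (Module.Finite.iff_fg.2 (Submodule.fg_of_fg_map_of_fg_inf_ker f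
    (Module.Finite.iff_fg.1 inferInstance) (Module.Finite.iff_fg.1 h)))

lemma frame1 (L : ℕ) (W Y : Submodule ℂ E) [FiniteDimensional ℂ W] (hY : ¬ FiniteDimensional ℂ Y) :
    ∃ (J : F L →L[ℂ] E) (P : E →L[ℂ] F L), (∀ a, J a ∈ Y) ∧ (∀ x ∈ W, P x = 0) ∧
      ∀ a, P (J a) = a := by
  obtain ⟨π, hπ⟩ := Submodule.ClosedComplemented.of_finiteDimensional W
  have h1 := inf_ker hY (π : E →ₗ[ℂ] W)
  set Y' := Y ⊓ LinearMap.ker (π : E →ₗ[ℂ] W)
  have h2 : (L : Cardinal) ≤ Module.rank ℂ Y' := by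
    refine (Cardinal.natCast_lt_aleph0.le).trans (not_lt.1 fun h => h1 ?_)
    exact Module.rank_lt_aleph0_iff.1 h
  obtain ⟨e, he⟩ := exists_linearIndependent_of_le_rank h2
  set J0 : F L →ₗ[ℂ] E := Y'.subtype ∘ₗ Fintype.linearCombination ℂ e with hJ0
  have hinj : Function.Injective J0 :=
    Y'.injective_subtype.comp (linearIndependent_iff_injective_fintypeLinearCombination.1 he)
  obtain ⟨P0, hP0⟩ := (LinearMap.toContinuousLinearMap
    (LinearEquiv.ofInjective J0 hinj).symm.toLinearMap).exist_extension_of_finiteDimensional_range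
  have hY' : ∀ a, J0 a ∈ Y' := fun a => (Fintype.linearCombination ℂ e a).2
  refine ⟨LinearMap.toContinuousLinearMap J0, P0 ∘L (1 - W.subtypeL ∘L π), fun a => (hY' a).1,
    fun x hx => ?_, fun a => ?_⟩
  · have := hπ ⟨x, hx⟩
    simp only at this
    simp [this]
  · have h3 : π (J0 a) = 0 := (hY' a).2
    have h4 := congrArg (fun T => T (LinearEquiv.ofInjective J0 hinj a)) hP0
    simp only [LinearMap.coe_toContinuousLinearMap', LinearEquiv.coe_coe,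
      LinearEquiv.symm_apply_apply] at h4
    simp only [ContinuousLinearMap.comp_apply, LinearMap.coe_toContinuousLinearMap', sub_apply,
      one_apply_eq_self, h3, map_zero, sub_zero]
    exact h4.symm

def Inv (A : E →L[ℂ] E) (B : E →L[ℂ] E →L[ℂ] ℂ) : Prop :=
  (∀ x y, B x y = B y x) ∧ (∀ x y, B (A x) y = B x (A y)) ∧ (∃ n, A ^ n = 0) ∧
    (∃ W : Submodule ℂ E, FiniteDimensional ℂ W ∧ ∀ x, A x ∈ W) ∧
    ∃ Y : Submodule ℂ E, ¬ FiniteDimensional ℂ Y ∧ (∀ x ∈ Y, A x = 0) ∧ ∀ x ∈ Y, ∀ y, B x y = 0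

lemma exists_frame {A : E →L[ℂ] E} {B : E →L[ℂ] E →L[ℂ] ℂ} (h : Inv A B) (u v : E) (L : ℕ) :
    ∃ W Y : Submodule ℂ E, FiniteDimensional ℂ W ∧ ¬ FiniteDimensional ℂ Y ∧ u ∈ W ∧ v ∈ W ∧
      Nonempty (Frame L A B W Y) := by
  obtain ⟨hB, hA, -, ⟨W, hW, AW⟩, Y, hY, AY, BY⟩ := h
  set W' := W ⊔ (Submodule.span ℂ {u} ⊔ Submodule.span ℂ {v}) with hW'
  obtain ⟨Jm, Pm, a1, a2, a3⟩ := frame1 L W' Y hY
  obtain ⟨Jp, Pp, b1, b2, b3⟩ := frame1 L (W' ⊔ LinearMap.range (Jm : F L →ₗ[ℂ] E))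
    (Y ⊓ LinearMap.ker (Pm : E →ₗ[ℂ] F L)) (inf_ker hY _)
  refine ⟨W', Y, inferInstance, hY, ?_, ?_, ⟨⟨Jm, Jp, Pm, Pp, hB, hA, a3, b3, fun a => (b1 a).2,
    fun a => b2 _ (Submodule.mem_sup_right ⟨a, rfl⟩), a1, fun a => (b1 a).1, AY, BY,
    fun x => Submodule.mem_sup_left (AW x), a2, fun x hx => b2 _ (Submodule.mem_sup_left hx)⟩⟩⟩
  · exact Submodule.mem_sup_right (Submodule.mem_sup_left (Submodule.mem_span_singleton_self _))
  · exact Submodule.mem_sup_right (Submodule.mem_sup_right (Submodule.mem_span_singleton_self _))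

variable {L : ℕ} {A : E →L[ℂ] E} {B : E →L[ℂ] E →L[ℂ] ℂ} {W Y : Submodule ℂ E}

lemma Frame.inv (φ : Frame L A B W Y) [FiniteDimensional ℂ W] (hY : ¬ FiniteDimensional ℂ Y)
    {β : ℂ} (hβ : β ≠ 0) (hL : 0 < L) {n : ℕ} (hn : A ^ n = 0) {Ξ : F L →L[ℂ] E}
    (hΞ : ∀ a, Ξ a ∈ W) : Inv (A + φ.dA β Ξ) (B + β⁻¹ • φ.dB) := by
  refine ⟨fun x y => ?_, φ.sym β hΞ hβ, ⟨_, φ.nil β hΞ hβ hL hn⟩,
    ⟨W ⊔ (LinearMap.range (φ.Jm : F L →ₗ[ℂ] E) ⊔ LinearMap.range (φ.Jp : F L →ₗ[ℂ] E)),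
      inferInstance, fun x => ?_⟩,
    (Y ⊓ LinearMap.ker (φ.Pm : E →ₗ[ℂ] F L)) ⊓ LinearMap.ker (φ.Pp : E →ₗ[ℂ] F L),
    inf_ker (inf_ker hY _) _, fun x hx => ?_, fun x hx y => ?_⟩
  · simp only [add_apply, smul_apply, Frame.dB_apply, φ.hB x y, dotProduct_comm (φ.Pm x),
      dotProduct_comm (φ.Pm y), smul_eq_mul]
    ring
  · rw [add_apply, Frame.dA_apply]
    exact add_mem (Submodule.mem_sup_left (φ.AW x)) (add_mem (add_mem
      (Submodule.mem_sup_right (Submodule.mem_sup_left ⟨_, rfl⟩))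
      (Submodule.mem_sup_left (φ.C_W β hΞ _)))
      (Submodule.mem_sup_right (Submodule.mem_sup_right ⟨_, rfl⟩)))
  · have h1 : φ.Pm x = 0 := hx.1.2
    have h2 : φ.Pp x = 0 := hx.2
    simp [Frame.dA_apply, h1, h2, φ.AY x hx.1.1, φ.dag_Y _ hx.1.1]
  · have h1 : φ.Pm x = 0 := hx.1.2
    have h2 : φ.Pp x = 0 := hx.2
    simp [Frame.dB_apply, h1, h2, φ.BY x hx.1.1]

section O

variable {V : Type*} [NormedAddCommGroup V] {k : ℤ} {f f' : ℕ → V}

lemma O.add (h : O k f) (h' : O k f') : O k fun b => f b + f' b := IsBigO.add h h'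

lemma O.sub (h : O k f) (h' : O k f') : O k fun b => f b - f' b := IsBigO.sub h h'

lemma O.csmul [NormedSpace ℂ V] (h : O k f) (c : ℂ) : O k fun b => c • f b :=
  IsBigO.const_smul_left h c

lemma O.tendsto' (h : O (-1) f) (c : V) : Tendsto (fun b => c + f b) atTop (𝓝 c) := by
  simpa using h.tendsto.const_add c

end O

lemma Frame.dA_tendsto (φ : Frame L A B W Y) {n : ℕ} {Ξ : ℕ → F L →L[ℂ] E}
    (h1 : O (4 * n + 2) Ξ) (h2 : O (-4 * n - 4) fun b : ℕ => Cc A b (Ξ b)) :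
    Tendsto (fun b : ℕ => φ.dA b (Ξ b)) atTop (𝓝 0) := by
  have hb : O 1 fun b : ℕ => (b : ℂ) := by simpa using O.zpow 1
  have hb2 : O 1 fun b : ℕ => (b : ℂ) / 2 := by
    simpa [div_eq_mul_inv] using O.entry (k := 1) (k' := 1) (2⁻¹) fun _ => le_rfl
  refine O.tendsto (IsBigO.add (IsBigO.add ?_ ?_) ?_)
  · exact ((O.const φ.Jm).comp (O_Zm.comp (O.const φ.Pm))).mono (by omega)
  · exact (h2.comp (O.const φ.Pm)).mono (by omega)
  · refine ((O.const φ.Jp).comp (k' := -1) (IsBigO.add (IsBigO.sub ?_ ?_) ?_)).mono (by omega)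
    · exact (hb.smul (O_dag h2)).mono (by omega)
    · exact ((hb2.smul ((((O_dag h1).comp h2).mono (k' := -2) (by omega)).add
        (((O_dag h2).comp h1).mono (by omega)))).comp (O.const φ.Pm)).mono (by omega)
    · exact (O_Zp.comp (O.const φ.Pp)).mono (by omega)

lemma dag_add (M M' : F L →L[ℂ] E) (x : E) : dag B (M + M') x = dag B M x + dag B M' x := by
  funext i; simp [dag]

lemma step [CompleteSpace E] (h : Inv A B) (u v : E) :
    ∃ (A' : ℕ → E →L[ℂ] E) (B' : ℕ → E →L[ℂ] E →L[ℂ] ℂ) (u' : ℕ → E),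
      (∀ b, 1 ≤ b → Inv (A' b) (B' b)) ∧ Tendsto A' atTop (𝓝 A) ∧ Tendsto B' atTop (𝓝 B) ∧
      Tendsto u' atTop (𝓝 u) ∧
      Tendsto (fun b : ℕ => NormedSpace.exp ((b : ℂ) ^ 4 • A' b) (u' b)) atTop (𝓝 v) := by
  obtain ⟨n, hn0, hn⟩ : ∃ n, 0 < n ∧ A ^ n = 0 := by
    obtain ⟨n, hn⟩ := h.2.2.1
    exact ⟨n + 1, by omega, by rw [pow_succ, hn, zero_mul]⟩
  obtain ⟨χ0, χ2, c1, c2, c3, c4, c5, c6, c7⟩ := exists_chi (4 * n + 3)
  set L := χ0.natDegree + χ2.natDegree + n + 1 with hL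
  obtain ⟨W, Y, hW, hY, hu, hv, ⟨φ⟩⟩ := exists_frame h u v L
  have d0 : χ0.natDegree + n < L := by omega
  have d1 : (1 - χ0).natDegree + n < L := by
    have := natDegree_sub_le 1 χ0
    rw [natDegree_one] at this; omega
  have d2 : (1 - χ0 - χ2).natDegree + n < L := by
    have := natDegree_sub_le 1 χ0
    have := natDegree_sub_le (1 - χ0) χ2
    rw [natDegree_one] at *; omega
  set Ξ : ℕ → F L →L[ℂ] E := fun b => Xi A n L b 0 χ0 u + Xi A n L b 1 (1 - χ0) v with hΞ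
  have ΞW : ∀ b a, Ξ b a ∈ W := fun b a =>
    W.add_mem (Xi_W φ.AW hu _ _ _) (Xi_W φ.AW hv _ _ _)
  set Ψ : ℕ → ℂ[X] := fun b => (2⁻¹ : ℂ) • (χ0 * Ep A B n b 0 u u +
    (1 - χ0 - χ2) * Ep A B n b 1 v u + χ2 * Ep A B n b 2 v v) with hΨ
  have dΨ : ∀ b, (Ψ b).natDegree < L := fun b => by
    have k : ∀ (χ : ℂ[X]) c x y, χ.natDegree + n < L → (χ * Ep A B n b c x y).natDegree ≤ L - 1 :=
      fun χ c x y h => natDegree_mul_le.trans (by
        have := Ep_deg (A := A) (B := B) (n := n) (β := b) c x y; omega)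
    have := (natDegree_smul_le (2⁻¹ : ℂ) _).trans (natDegree_add_le_of_degree_le
      (natDegree_add_le_of_degree_le (k χ0 0 u u d0) (k _ 1 v u d2)) (k χ2 2 v v (by omega)))
    exact lt_of_le_of_lt this (by omega)
  have ne : ∀ b : ℕ, 1 ≤ b → (b : ℂ) ≠ 0 := fun b hb => by exact_mod_cast (by omega : b ≠ 0)
  have hdag : ∀ b : ℕ, 1 ≤ b → ∀ x, ((b : ℂ) / 2) • dag B (Ξ b) x =
      (2⁻¹ : ℂ) • Θ L b (χ0 * Ep A B n b 0 u x + (1 - χ0) * Ep A B n b 1 v x) := fun b hb x => by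
    rw [map_add, ← dag_Xi (ne b hb), ← dag_Xi (ne b hb), ← smul_add, ← dag_add, smul_smul,
      div_eq_inv_mul]
  have hO : ∀ (c : ℂ) (x y : E) (q : ℂ[X]), w ^ (4 * n + 3) ∣ q →
      O (-1) fun b : ℕ => Θ L b (q * Ep A B n b c x y) := fun c x y q hq =>
    (O_ΘE c x y hq).mono (by push_cast; omega)
  refine ⟨fun b => A + φ.dA b (Ξ b), fun b => B + (b : ℂ)⁻¹ • φ.dB,
    fun b => φ.S b (Ξ b) (φ.Jm (av L b 0) + φ.Jp (Θ L b (Ψ b))),
    fun b hb => φ.inv hY (ne b hb) (by omega) hn (ΞW b), ?_, ?_, ?_, ?_⟩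
  · have := φ.dA_tendsto (n := n) (Ξ := Ξ) ?_ ?_
    · simpa using this.const_add A
    · exact IsBigO.add ((O_Xi A u 0 (m := 0) (by simp)).mono (by simp))
        ((O_Xi A v 1 (m := 0) (by simp)).mono (by simp))
    · have k1 := (O.zpow (-4)).smul (IsBigO.add (O_Xi (n := n) (L := L) A u 0 c1)
        (O_Xi (n := n) (L := L) A v 1 (χ := derivative (1 - χ0)) (by simpa using c1)))
      refine IsBigO.congr' (k1.mono (by push_cast; omega)) ?_ .rfl
      filter_upwards [eventually_ge_atTop 1] with b hb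
      have : Cc A b (Ξ b) = Cc A b (Xi A n L b 0 χ0 u) + Cc A b (Xi A n L b 1 (1 - χ0) v) := by
        simp only [Cc, hΞ, ContinuousLinearMap.add_comp, ContinuousLinearMap.comp_add]; abel
      rw [this, Cc_Xi (ne b hb) hn0 hn d0, Cc_Xi (ne b hb) hn0 hn d1, smul_add, zpow_neg]
      norm_cast
  · have := (((O.zpow (-1)).smul (O.const φ.dB)).mono (k' := -1) (by omega)).tendsto' B
    simpa only [zpow_neg_one] using this
  · have k1 : O (-1) fun b : ℕ => φ.Jm (av L b 0) + φ.Jp ((2⁻¹ : ℂ) •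
        (Θ L b (χ2 * Ep A B n b 2 v v) - Θ L b (χ2 * Ep A B n b 1 v u))) :=
      ((O_av (by simp [w])).clm _).add ((((hO _ _ _ _ c4).sub (hO _ _ _ _ c4)).csmul _).clm _)
    have k2 := k1.tendsto.add_const u
    rw [zero_add] at k2
    refine k2.congr' ?_
    filter_upwards [eventually_ge_atTop 1] with b hb
    have e1 : Ξ b (av L b 0) = u := by
      rw [hΞ, add_apply, Xi_av1 (ne b hb) hn0 d0 0 u c2, Xi_av0 (ne b hb) d1 _ _ _ (by simp [c2]),
        add_zero]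
    rw [φ.S_J, e1, hdag b hb, add_right_comm, hΨ, map_smul (Θ L b), ← smul_sub, ← map_sub,
      ← map_sub]
    congr 4; ring
  · have k1 : O (-1) fun b : ℕ => φ.Jm (av L b 1) + φ.Jp ((2⁻¹ : ℂ) •
        (Θ L b (taylor 1 χ0 * Ep A B n b (0 - 1) u u) +
          Θ L b ((taylor 1 (1 - χ0 - χ2) - χ0) * Ep A B n b 0 u v) +
          Θ L b ((taylor 1 χ2 - 1 + χ0) * Ep A B n b 1 v v))) :=
      ((O_av (by simp [w])).clm _).add
        (((((hO _ _ _ _ c5).add (hO _ _ _ _ c6)).add (hO _ _ _ _ c7)).csmul _).clm _)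
    have k2 := k1.tendsto.add_const v
    rw [zero_add] at k2
    refine k2.congr' ?_
    filter_upwards [eventually_ge_atTop 1] with b hb
    have e1 : Ξ b (av L b 1) = v := by
      rw [hΞ, add_apply, Xi_av0 (ne b hb) d0 _ _ _ c3,
        Xi_av1 (ne b hb) hn0 d1 1 v (by simp [c3]), zero_add]
    rw [φ.exp_S b (ΞW b) (ne b hb) (by omega) hn (dΨ b), φ.S_J, e1, hdag b hb, add_right_comm, hΨ,
      map_smul (taylor 1), map_smul (Θ L b), ← smul_sub, ← map_sub, ← map_add, ← map_add, map_add (taylor 1),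
      map_add (taylor 1), taylor_mul, taylor_mul, taylor_mul, Ep_taylor, Ep_taylor, Ep_taylor,
      sub_self, Ep_symm φ.hB φ.hA 0 v u, show (2 : ℂ) - 1 = 1 by norm_num]
    congr 4; ring

end Pool.Agent.H.MP_dc1b93_an
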