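import Pool.Agent.H.MP_dc1b93_an.D

set_option autoImplicit false

namespace Pool.Agent.H.MP_dc1b93_an

open Filter Topology NormedSpace

variable {E : Type*} [NormedAddCommGroup E] [NormedSpace ℂ E] [CompleteSpace E]

lemma exp_cont : Continuous (exp : (E →L[ℂ] E) → E →L[ℂ] E) :=
  continuous_iff_continuousAt.2 fun x => (exp_analytic (𝕂 := ℂ) x).continuousAt

lemma exp_pow (n : ℕ) (A : E →L[ℂ] E) : exp ((n : ℂ) • A) = exp A ^ n := by
  let : NormedAlgebra ℚ (E →L[ℂ] E) := NormedAlgebra.restrictScalars ℚ ℂ _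
  rw [Nat.cast_smul_eq_nsmul, exp_nsmul]

lemma exp_sub_nil {A : E →L[ℂ] E} {n : ℕ} (h : A ^ n = 0) : (exp A - 1) ^ (n + 1) = 0 := by
  have h1 : A ^ (n + 1) = 0 := by rw [pow_succ, h, zero_mul]
  have h2 : exp A - 1 = A * ∑ k ∈ Finset.range n, (((k + 1).factorial : ℂ)⁻¹) • A ^ k := by
    rw [exp_nil h1, Finset.sum_range_succ', Finset.mul_sum]
    simp [pow_succ']
  have h3 : Commute A (∑ k ∈ Finset.range n, (((k + 1).factorial : ℂ)⁻¹) • A ^ k) :=
    Commute.sum_right _ _ _ fun k _ => ((Commute.refl A).pow_right k).smul_right _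
  rw [h2, h3.mul_pow, h1, zero_mul]

omit [CompleteSpace E] in
lemma pow_symm {A : E →L[ℂ] E} {B : E →L[ℂ] E →L[ℂ] ℂ} (hA : ∀ x y, B (A x) y = B x (A y))
    (k : ℕ) : ∀ x y, B ((A ^ k) x) y = B x ((A ^ k) y) := by
  induction k with
  | zero => simp
  | succ k ih =>
    intro x y
    rw [pow_succ', mul_apply_eq_comp, hA, ih, ← mul_apply_eq_comp, ← pow_succ, pow_succ']

lemma exp_symm {A : E →L[ℂ] E} {B : E →L[ℂ] E →L[ℂ] ℂ} (hA : ∀ x y, B (A x) y = B x (A y))
    (x y : E) : B (exp A x) y = B x (exp A y) := by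
  have h := exp_series_hasSum_exp' (𝕂 := ℂ) A
  have h1 := (B.flip y).hasSum ((ContinuousLinearMap.apply ℂ E x).hasSum h)
  have h2 := (B x).hasSum ((ContinuousLinearMap.apply ℂ E y).hasSum h)
  simp only [ContinuousLinearMap.apply_apply, ContinuousLinearMap.flip_apply,
    map_smul, pow_symm hA] at h1 h2
  exact h1.unique h2

abbrev St (E : Type*) [NormedAddCommGroup E] [NormedSpace ℂ E] :=
  (E →L[ℂ] E) × (E →L[ℂ] E →L[ℂ] ℂ) × E

lemma cm {V W : Type*} [NormedAddCommGroup V] [NormedSpace ℂ V] [NormedAddCommGroup W]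
    [NormedSpace ℂ W] [CompleteSpace W] :
    TopologicalSpace.IsCompletelyMetrizableSpace (V →L[ℂ] W) := inferInstance

lemma baire {M : Type*} [TopologicalSpace M] [TopologicalSpace.IsCompletelyMetrizableSpace M]
    (S : Set M) (U : ℕ × ℕ → Set M)
    (hU : ∀ i, IsOpen (U i))
    (hd : ∀ i, S ⊆ closure (U i ∩ S)) (G : Set M) (hG : IsOpen G) (hGS : (G ∩ S).Nonempty) :
    ∃ p ∈ closure S, p ∈ G ∧ ∀ i, p ∈ U i := by
  have := (isClosed_closure (s := S)).isCompletelyMetrizableSpace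
  have h1 : Dense (⋂ i, (Subtype.val ⁻¹' U i : Set (closure S))) := by
    refine dense_iInter_of_isOpen (fun i => (hU i).preimage continuous_subtype_val) fun i => ?_
    rw [Subtype.dense_iff]
    refine closure_minimal ((hd i).trans (closure_mono ?_)) isClosed_closure
    rintro p ⟨h1, h2⟩
    exact ⟨⟨p, subset_closure h2⟩, h1, rfl⟩
  obtain ⟨q, hq1, hq2⟩ := hGS
  obtain ⟨p, hp1, hp2⟩ := h1.inter_open_nonempty _ (hG.preimage continuous_subtype_val)
    ⟨⟨q, subset_closure hq2⟩, hq1⟩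
  exact ⟨p, p.2, hp1, fun i => Set.mem_iInter.1 hp2 i⟩

lemma exists_AB [TopologicalSpace.SeparableSpace E] (hE : ¬ FiniteDimensional ℂ E) :
    ∃ (T : E →L[ℂ] E) (B : E →L[ℂ] E →L[ℂ] ℂ) (u : E), B ≠ 0 ∧ (∀ x y, B (T x) y = B x (T y)) ∧
      Dense (Set.range fun n : ℕ => (T ^ n) u) ∧
      ∀ ε : ℝ, 0 < ε → ∃ N, 0 < N ∧ ‖(T - 1) ^ N‖ < ε ^ N := by
  have : Nontrivial E := by
    by_contra h
    rw [not_nontrivial_iff_subsingleton] at h
    exact hE inferInstance
  set d := TopologicalSpace.denseSeq E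
  set S : Set (St E) := {p | Inv p.1 p.2.1} with hS
  set U : ℕ × ℕ → Set (St E) := fun i =>
    {p | ∃ b : ℕ, ‖(exp p.1 ^ b) p.2.2 - d i.1‖ < 1 / ((i.2 : ℝ) + 1)} ∩
    {p | ∃ N, 0 < N ∧ ‖(exp p.1 - 1) ^ N‖ < (1 / ((i.2 : ℝ) + 1)) ^ N} with hU
  have c1 : Continuous fun p : St E => exp p.1 := exp_cont.comp continuous_fst
  obtain ⟨x0, hx0⟩ := exists_ne (0 : E)
  obtain ⟨f, -, hf⟩ := exists_dual_vector ℂ x0 (norm_ne_zero_iff.2 hx0)
  suffices H : (∀ i, IsOpen (U i)) ∧ (∀ i, ∀ p ∈ S, p ∈ closure (U i ∩ S)) ∧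
      f.smulRight f ≠ 0 ∧ Inv 0 (f.smulRight f) by
    have h1 : TopologicalSpace.IsCompletelyMetrizableSpace (E →L[ℂ] E →L[ℂ] ℂ) := cm
    obtain ⟨p, hp1, hp2, hp3⟩ := baire S U H.1 H.2.1 {p | p.2.1 ≠ 0}
      (isOpen_ne_fun (continuous_fst.comp continuous_snd) continuous_const)
      ⟨(0, f.smulRight f, 0), H.2.2⟩
    refine ⟨exp p.1, p.2.1, p.2.2, hp2, exp_symm fun x y => ?_, ?_, fun ε hε => ?_⟩
    · refine closure_minimal (t := {p : St E | p.2.1 (p.1 x) y = p.2.1 x (p.1 y)})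
        (fun q hq => hq.2.1 x y) (isClosed_eq ?_ ?_) hp1
      · exact ((continuous_fst.comp continuous_snd).clm_apply
          (continuous_fst.clm_apply continuous_const)).clm_apply continuous_const
      · exact ((continuous_fst.comp continuous_snd).clm_apply continuous_const).clm_apply
          (continuous_fst.clm_apply continuous_const)
    · rw [Metric.dense_iff]
      intro x r hr
      obtain ⟨j, hj⟩ := (TopologicalSpace.denseRange_denseSeq E).exists_dist_lt x (half_pos hr)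
      obtain ⟨k, hk⟩ := exists_nat_one_div_lt (half_pos hr)
      obtain ⟨b, hb⟩ := (hp3 (j, k)).1
      refine ⟨_, ?_, b, rfl⟩
      rw [← dist_eq_norm] at hb
      rw [Metric.mem_ball]
      linarith [dist_triangle_right ((exp p.1 ^ b) p.2.2) x (d j)]
    · obtain ⟨k, hk⟩ := exists_nat_one_div_lt hε
      obtain ⟨N, h1, h2⟩ := (hp3 (0, k)).2
      exact ⟨N, h1, h2.trans_le (pow_le_pow_left₀ (by positivity) hk.le _)⟩
  refine ⟨fun i => ?_, fun i p hp => ?_, ?_, ?_⟩
  · refine IsOpen.inter ?_ ?_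
    · rw [Set.ofPred_exists]
      exact isOpen_iUnion fun b => isOpen_lt (((c1.pow b).clm_apply
        (continuous_snd.comp continuous_snd)).sub continuous_const).norm continuous_const
    · rw [Set.ofPred_exists]
      refine isOpen_iUnion fun N => ?_
      rw [Set.ofPred_and]
      exact isOpen_const.inter (isOpen_lt ((c1.sub continuous_const).pow N).norm continuous_const)
  · obtain ⟨A', B', u', h1, h2, h3, h4, h5⟩ := step hp p.2.2 (d i.1)
    refine mem_closure_of_tendsto (h2.prodMk_nhds (h3.prodMk_nhds h4)) ?_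
    have h6 := (Metric.tendsto_nhds.1 h5) (1 / ((i.2 : ℝ) + 1)) (by positivity)
    filter_upwards [h6, eventually_ge_atTop 1] with b hb hb1
    obtain ⟨n, hn⟩ := (h1 b hb1).2.2.1
    refine ⟨⟨⟨b ^ 4, ?_⟩, n + 1, n.succ_pos, ?_⟩, h1 b hb1⟩
    · rw [← exp_pow, ← dist_eq_norm]; exact_mod_cast hb
    · rw [exp_sub_nil hn, norm_zero]; positivity
  · intro h
    have := congrArg (fun B : E →L[ℂ] E →L[ℂ] ℂ => B x0 x0) h
    simp [hf, hx0] at this
  · refine ⟨fun x y => by simp [mul_comm], fun x y => by simp, ⟨1, by simp⟩,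
      ⟨⊥, inferInstance, by simp⟩, ⊤ ⊓ LinearMap.ker (f : E →ₗ[ℂ] ℂ), inf_ker (fun h => hE ?_) _,
      by simp, fun x hx y => ?_⟩
    · exact Submodule.topEquiv.finiteDimensional
    · have : f x = 0 := hx.2
      simp [this]

theorem main [TopologicalSpace.SeparableSpace E] (hE : ¬ FiniteDimensional ℂ E) :
    ∃ T : E →L[ℂ] E, (∃ x, Dense (Set.range fun n : ℕ => (T ^ n) x)) ∧
      (¬ ∃ p : E × E, Dense (Submodule.span ℂ (Set.range fun n : ℕ => ((T.prodMap T) ^ n) p) :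
        Set (E × E))) ∧ spectrum ℂ T = {1} := by
  have : Nontrivial E := by
    by_contra h
    rw [not_nontrivial_iff_subsingleton] at h
    exact hE inferInstance
  obtain ⟨T, B, u, h1, h2, h3, h4⟩ := exists_AB hE
  refine ⟨T, ⟨u, h3⟩, ?_, ?_⟩
  · rintro ⟨⟨x, y⟩, hp⟩
    have e : ∀ n, ((T.prodMap T) ^ n) (x, y) = ((T ^ n) x, (T ^ n) y) := fun n => by
      induction n with
      | zero => simp
      | succ n ih => rw [pow_succ', mul_apply_eq_comp, ih, pow_succ', mul_apply_eq_comp]; rfl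
    have key : ∀ Λ : (E × E) →L[ℂ] ℂ, (∀ n, Λ ((T ^ n) x, (T ^ n) y) = 0) → ∀ q, Λ q = 0 :=
      fun Λ hΛ q => by
        refine closure_minimal (t := {q | Λ q = 0}) (fun q hq => ?_)
          (isClosed_eq Λ.continuous continuous_const) (hp q)
        refine (Submodule.span_le (p := LinearMap.ker (Λ : E × E →ₗ[ℂ] ℂ))).2 ?_ hq
        rintro _ ⟨n, rfl⟩
        simp only [e]; exact hΛ n
    have k1 := key (B.flip y ∘L ContinuousLinearMap.fst ℂ E E - B x ∘L ContinuousLinearMap.snd ℂ E E)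
      fun n => sub_eq_zero.2 (pow_symm h2 n x y)
    have k2 : ∀ v, B x v = 0 := fun v => by simpa using k1 (0, v)
    refine h1 (ContinuousLinearMap.ext fun z => ContinuousLinearMap.ext fun v => ?_)
    have := key (B.flip v ∘L ContinuousLinearMap.fst ℂ E E)
      (fun n => (pow_symm h2 n x v).trans (k2 _)) (z, 0)
    simpa using this
  · have h : ∀ z ∈ spectrum ℂ T, z = 1 := fun z hz => by
      by_contra h0
      obtain ⟨N, -, hN⟩ := h4 ‖z - 1‖ (norm_pos_iff.2 (sub_ne_zero.2 h0))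
      have h5 : z - 1 ∈ spectrum ℂ (T - 1) := by
        have := spectrum.sub_singleton_eq T (1 : ℂ)
        rw [map_one] at this
        rw [← this]
        exact Set.sub_mem_sub hz rfl
      have h6 := spectrum.norm_le_norm_of_mem (spectrum.pow_mem_pow (T - 1) N h5)
      rw [norm_pow] at h6
      linarith
    obtain ⟨z, hz⟩ := spectrum.nonempty T
    exact Set.eq_singleton_iff_unique_mem.2 ⟨h z hz ▸ hz, h⟩

end Pool.Agent.H.MP_dc1b93_an
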